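import Pool.Agent.Helper91.GU.StE

set_option autoImplicit false

namespace Pool.Agent.Helper84.GU

open Polynomial
open Pool.Agent.Helper91.GU

universe u

theorem hE2 (hE2b : StE2b.{u}) : StE2.{u} := by
  intro L _ I k₀ a hYK k hk hk1 hu w hw
  obtain ⟨κ, hκ⟩ := hu.exists_left_inv
  obtain ⟨h1, h2⟩ := hE2b L I k₀ a hYK k hk hk1 κ hκ
  obtain ⟨ε, hε⟩ : ∃ ε : L[X], ε = C κ * ∑ i ∈ Finset.range k, C (a (k + i)) * X ^ (k + i) :=
    ⟨_, rfl⟩
  rw [← hε] at h1
  obtain ⟨l, hl⟩ := h2 w hw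
  rw [← hε] at hl
  obtain ⟨j, hj⟩ : ∃ j : L[X], j = ε * w - l * (1 - C (a k) * X ^ k) := ⟨_, rfl⟩
  rw [← hj, Ideal.mem_map_C_iff] at hl
  have hjc : ∀ i, C (j.coeff i) ∈ I := fun i => by
    have := hl i
    rwa [Ideal.mem_comap] at this
  refine ⟨k₀ + j.natDegree, fun N hN => ?_⟩
  refine ⟨l, ∑ i ∈ Finset.range (j.natDegree + 1), j.coeff i * a (N - i), ?_, ?_⟩
  · rw [map_sum]
    refine Ideal.sum_mem _ fun i _ => ?_
    rw [map_mul]
    exact Ideal.mul_mem_right _ _ (hjc i)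
  · have hsum : j = ∑ i ∈ Finset.range (j.natDegree + 1), C (j.coeff i) * X ^ i :=
      j.as_sum_range_C_mul_X_pow
    have key : w - l * (1 - C (a k) * X ^ k)
        - C (∑ i ∈ Finset.range (j.natDegree + 1), j.coeff i * a (N - i)) * X ^ N
        = (1 - ε) * w + ∑ i ∈ Finset.range (j.natDegree + 1),
          C (j.coeff i) * (X ^ i * (1 - C (a (N - i)) * X ^ (N - i))) := by
      have h3 : w - l * (1 - C (a k) * X ^ k) = (1 - ε) * w + j := by rw [hj]; ring
      have h4 : (∑ i ∈ Finset.range (j.natDegree + 1), C (j.coeff i) * X ^ i)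
          - C (∑ i ∈ Finset.range (j.natDegree + 1), j.coeff i * a (N - i)) * X ^ N
          = ∑ i ∈ Finset.range (j.natDegree + 1),
            C (j.coeff i) * (X ^ i * (1 - C (a (N - i)) * X ^ (N - i))) := by
        rw [map_sum, Finset.sum_mul, ← Finset.sum_sub_distrib]
        refine Finset.sum_congr rfl fun i hi => ?_
        have hi' : i ≤ N := by
          have := Finset.mem_range.1 hi
          omega
        have h5 : (X : L[X]) ^ N = X ^ i * X ^ (N - i) := by
          rw [← pow_add, Nat.add_sub_cancel' hi']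
        rw [h5, map_mul]
        ring
      rw [h3, add_sub_assoc, ← h4, ← hsum]
    rw [key, pow_two]
    refine Ideal.add_mem _ (Ideal.mul_mem_mul h1 hw) (Ideal.sum_mem _ fun i hi => ?_)
    refine Ideal.mul_mem_mul (hjc i) (Ideal.mul_mem_left _ _ (hYK (N - i) ?_))
    have := Finset.mem_range.1 hi
    omega

end Pool.Agent.Helper84.GU
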