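import Pool.Agent.Helper91.GU.StH

set_option autoImplicit false

namespace Pool.Agent.Helper84.GU

open Polynomial
open Pool.Agent.Helper91.GU

universe u

theorem hH1a : StH1a.{u} := by
  intro D D' _ _ _ _ _ _ a _ hadj
  have hsurj : Function.Surjective (aeval a : D[X] →ₐ[D] D').toRingHom := by
    intro y
    have hy : y ∈ Algebra.adjoin D {a} := by rw [hadj]; trivial
    rw [Algebra.adjoin_singleton_eq_range_aeval] at hy
    obtain ⟨p, hp⟩ := hy
    exact ⟨p, hp⟩
  have hdim : ringKrullDim D[X] = ringKrullDim D + 1 := Polynomial.ringKrullDim_of_isNoetherianRing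
  refine ⟨?_, fun hal => ?_⟩
  · rw [← hdim]
    exact ringKrullDim_le_of_surjective _ hsurj
  · obtain ⟨p, hp0, hp⟩ := hal
    have h := ringKrullDim_succ_le_of_surjective _ hsurj (mem_nonZeroDivisors_of_ne_zero hp0)
      (by simpa using hp)
    rw [hdim] at h
    exact ENat.WithBot.add_le_add_one_right_iff.1 h

end Pool.Agent.Helper84.GU
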