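import Pool.Agent.Helper96.GU.St

/-!
Project GU (MP_2c90c1_al), module TWU: the data of the tower in the cover.
-/

set_option autoImplicit false

namespace Pool.Agent.Helper84.GU

open Pool.Agent.Helper96.UT hiding StTOP TopV TopE tht Bd VC EC
open Pool.Agent.Helper96.GU

theorem tTWU : StZCV → StTWU := by
  intro hZ α Z Ω Θ _ _ o W v B D hT θ hθ
  refine ⟨?_, ?_, ?_, ?_, ?_⟩
  · intro x hx g
    have h := hT.inv (x.1.1, x.2) hx g
    exact h
  · exact hT.bas
  · intro w hw
    rw [act_zp, act_zp, hθ w hw, add_zero, hT.fix w hw]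
  · intro w hw
    rw [act_zp]
    exact hT.cel w hw
  · exact hZ α Z Ω Θ θ o B D hT.r2

end Pool.Agent.Helper84.GU
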